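import Pool.Agent.Q181.RF.Final

/-!
# A real analytic diffeomorphism of the torus with `h(ρ) < ∫ χ₊ dρ` for every invariant `ρ`

The definitions used in the statement are in `Pool/Agent/Q181/RF/Osel.lean`
(`NormField`, `OseledetsSplitting`, `OseledetsSplitting.posSum`, `IsChiPlus`) and
`Pool/Agent/Q181/RF/Ent.lean` (`partEntropy`, `itinerary`, `ksEntropy`).  The torus
`Circle × Circle` carries its Borel σ-algebra (instance in `Pool/Agent/Q181/RF/Meas.lean`).
-/

set_option autoImplicit false

namespace Pool.Agent.Results.MP_794bd6_an.NoEqualityMeasure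

open scoped Manifold ContDiff
open MeasureTheory Pool.Agent.Q181.RF

section
variable {E H M : Type*} [NormedAddCommGroup E] [NormedSpace ℝ E] [TopologicalSpace H]
  {I : ModelWithCorners ℝ E H} [TopologicalSpace M] [ChartedSpace H M] [MeasurableSpace M]

/-- For every field of norms on the tangent spaces and every `f`-invariant probability measure `ρ`:
the function `χ₊` is defined `ρ`-almost everywhere and measurable, it is integrable, and
`h(ρ) < ∫ χ₊ dρ`. -/
def NoEquality (f : M ≃ₘ^ω⟮I, I⟯ M) : Prop :=
  ∀ (ν : NormField I M) (ρ : Measure M), IsProbabilityMeasure ρ → MeasurePreserving f ρ ρ →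
    (∃ χp : M → ℝ, Measurable χp ∧ IsChiPlus f ν ρ χp) ∧
    ∀ χp : M → ℝ, IsChiPlus f ν ρ χp →
      Integrable χp ρ ∧ ksEntropy ρ f < ENNReal.ofReal (∫ x, χp x ∂ρ)

end

/-- **Negative answer to Q1.**  There is a real analytic diffeomorphism `f` of the two-dimensional
torus such that for every field of norms on the tangent spaces (e.g. that of a Riemannian metric)
and every `f`-invariant Borel probability measure `ρ`: the function `χ₊` (sum of the positive
Lyapunov exponents with multiplicity) is defined `ρ`-almost everywhere and measurable, it is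
integrable, and the Kolmogorov-Sinai entropy of `ρ` is strictly smaller than `∫ χ₊ dρ`. -/
theorem result :
    ∃ f : (Circle × Circle) ≃ₘ^ω⟮(𝓡 1).prod (𝓡 1), (𝓡 1).prod (𝓡 1)⟯ (Circle × Circle),
      NoEquality f := by
  refine ⟨f, ?_⟩
  intro ν ρ hρ hf
  have hae := ae_fix ρ hf
  have hfin := finite_fix
  constructor
  · classical
    set g : T2 → ℝ := fun p =>
      if h : Vtx p ∨ Ctr p then (Classical.choice (at_fix h ν).2.1).posSum else 0 with hg
    refine ⟨fun p => ∑ q ∈ hfin.toFinset, ({q} : Set T2).indicator (fun _ => g q) p, ?_, ?_⟩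
    · apply Finset.measurable_fun_sum
      intro q _
      exact measurable_const.indicator (measurableSet_singleton q)
    · filter_upwards [hae] with p hp
      refine ⟨Classical.choice (at_fix hp ν).2.1, ?_⟩
      rw [Finset.sum_eq_single p]
      · rw [Set.indicator_of_mem (Set.mem_singleton p), hg]
        simp only [dif_pos hp]
      · intro q _ hq
        rw [Set.indicator_of_notMem]
        intro h2
        exact hq (Set.mem_singleton_iff.1 h2).symm
      · intro h2
        exact absurd (hfin.mem_toFinset.2 hp) h2
  · intro χp hχ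
    have hint : Integrable χp ρ := integrable_of_finite hfin hae χp
    refine ⟨hint, ?_⟩
    have hpos : ∀ᵐ p ∂ρ, 0 < χp p := by
      filter_upwards [hae, hχ] with p hp ⟨S, hS⟩
      rw [← hS]
      exact (at_fix hp ν).2.2 S
    have hent : ksEntropy ρ f = 0 := by
      apply ksEntropy_eq_zero
      filter_upwards [hae] with p hp
      exact (at_fix hp ν).1
    rw [hent, ENNReal.ofReal_pos]
    rw [integral_pos_iff_support_of_nonneg_ae (hpos.mono fun _ h => h.le) hint]
    have h1 : ρ (Function.support χp) = 1 := by
      have h2 : Function.support χp =ᵐ[ρ] (Set.univ : Set T2) :=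
        Filter.eventuallyEq_univ.2 (hpos.mono fun _ h => h.ne')
      rw [measure_congr h2, measure_univ]
    rw [h1]
    exact one_pos

end Pool.Agent.Results.MP_794bd6_an.NoEqualityMeasure
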